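import Pool.Agent.Y105.CT.Sq

/-!
# Cotype 2 of the quotient of `L_1` by the span of a Sidon set
-/

set_option autoImplicit false

open scoped ComplexConjugate
open Finset Function Filter Topology Pool.Agent.TH325.PI

namespace Pool.Agent.Y105.CT

section

variable {Γ : Type} [AddCommGroup Γ] {T : Tow Γ} {X : Type} [NormedAddCommGroup X]
    [NormedSpace ℂ X] (Q : Quo T X)

include Q in
/-- cotype 2 for classes of polynomials -/
theorem finite_cotype (N : ℕ) (z : ℕ → (Γ →₀ ℂ)) (D : Finset ℕ → ℝ)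
    (hC : ∀ e ∈ (range N).powerset, ‖Q.q (∑ i ∈ range N, sg i e • z i)‖ < D e) :
    ∑ i ∈ range N, ‖Q.q (z i)‖ ^ 2 ≤ 17 ^ 2 * ((2 ^ N)⁻¹ * ∑ e ∈ (range N).powerset, D e ^ 2) := by
  classical
  -- corrections
  have hex : ∀ e : Finset ℕ, ∃ y, T.InY y ∧ (e ∈ (range N).powerset →
      T.N (∑ i ∈ range N, sg i e • z i - y) ≤ D e) := by
    intro e
    by_cases he : e ∈ (range N).powerset
    · obtain ⟨y, hy, hlt⟩ := Q.q_inf (∑ i ∈ range N, sg i e • z i)
        (D e - ‖Q.q (∑ i ∈ range N, sg i e • z i)‖) (by linarith [hC e he])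
      exact ⟨y, hy, fun _ => by linarith⟩
    · exact ⟨0, (Y1 T).zero_mem, fun h => absurd h he⟩
  choose y hyY hyC using hex
  let y1 : ℕ → (Γ →₀ ℂ) := fun i => ((2 : ℂ) ^ N)⁻¹ • ∑ e ∈ (range N).powerset, sg i e • y e
  let z' : ℕ → (Γ →₀ ℂ) := fun i => z i - y1 i
  let y' : Finset ℕ → (Γ →₀ ℂ) := fun e => y e - ∑ i ∈ range N, sg i e • y1 i
  have hy1Y : ∀ i, T.InY (y1 i) := fun i =>
    Tow.InY.smul T _ (Tow.InY.sum T _ _ fun e _ => Tow.InY.smul T _ (hyY e))
  have hy'Y : ∀ e, T.InY (y' e) := fun e =>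
    Tow.InY.sub T (hyY e) (Tow.InY.sum T _ _ fun i _ => Tow.InY.smul T _ (hy1Y i))
  obtain ⟨C, hCdef⟩ : ∃ C, C = √((2 ^ N)⁻¹ * ∑ e ∈ (range N).powerset, D e ^ 2) := ⟨_, rfl⟩
  have hC0 : 0 ≤ C := by rw [hCdef]; exact Real.sqrt_nonneg _
  have hCC : C ^ 2 = (2 ^ N)⁻¹ * ∑ e ∈ (range N).powerset, D e ^ 2 := by
    rw [hCdef, Real.sq_sqrt]
    positivity
  -- the level
  obtain ⟨n, _, hn⟩ := T.exists_level ((range N).image z') 0
  have hlev : ∀ i < N, T.N (z' i) = T.Nn n (z' i) := fun i hi =>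
    T.N_eq n _ (hn n le_rfl _ (Finset.mem_image_of_mem _ (Finset.mem_range.2 hi)))
  have hzc : ∀ i < N, ‖Q.q (z i)‖ ≤ T.Nn n (z' i) := by
    intro i hi
    rw [← hlev i hi]
    have h1 := Q.q_le (z' i)
    have h2 : Q.q (z' i) = Q.q (z i) := by
      simp only [z']
      rw [map_sub, Q.q_Y _ (hy1Y i), sub_zero]
    rw [h2] at h1
    exact h1
  let a : T.Om n → ℝ := fun t => √(∑ i ∈ range N, ‖T.ev n t (z' i)‖ ^ 2)
  have hsn : ∀ t, 0 ≤ ∑ i ∈ range N, ‖T.ev n t (z' i)‖ ^ 2 := fun t =>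
    Finset.sum_nonneg fun _ _ => by positivity
  have ha2 : ∀ t, a t ^ 2 = ∑ i ∈ range N, ‖T.ev n t (z' i)‖ ^ 2 := fun t => Real.sq_sqrt (hsn t)
  have hMpos := T.M_pos n
  have hupper := square_bound2 (Finset.univ : Finset (T.Om n)) (range N).powerset (T.M n)
    (2 ^ N) hMpos (by positivity) (by rw [Finset.card_univ]; exact T.card_Om n) (card_signs N)
    (fun e t => rs N (fun i => T.ev n t (z' i)) e) (fun e t => T.ev n t (y' e)) a
    (fun t _ => Real.sqrt_nonneg _) C hC0 D hCC.ge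
    (fun t _ => by rw [rs_two, ha2])
    (fun t _ => by
      have h1 := rs_four N (fun i => T.ev n t (z' i))
      rw [← ha2] at h1
      calc _ ≤ _ := h1
        _ = _ := by ring)
    (fun t _ => by
      have h1 : ∀ e ∈ (range N).powerset, conj (rs N (fun i => T.ev n t (z' i)) e) *
          T.ev n t (y' e) = ∑ i ∈ range N, conj (T.ev n t (z' i)) * (sg i e * T.ev n t (y' e)) := by
        intro e _
        unfold rs
        rw [map_sum, Finset.sum_mul]
        refine Finset.sum_congr rfl fun i _ => ?_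
        rw [map_mul, sg_conj]
        ring
      rw [Finset.sum_congr rfl h1, Finset.sum_comm]
      refine Finset.sum_eq_zero fun i hi => ?_
      rw [← Finset.mul_sum]
      have h2 : ∑ e ∈ (range N).powerset, sg i e * T.ev n t (y' e) = 0 := by
        have h3 : ∀ e ∈ (range N).powerset, sg i e * T.ev n t (y' e) =
            sg i e * T.ev n t (y e) - ∑ j ∈ range N, T.ev n t (y1 j) * (sg i e * sg j e) := by
          intro e _
          simp only [y']
          rw [map_sub, map_sum, mul_sub, Finset.mul_sum]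
          congr 1
          refine Finset.sum_congr rfl fun j _ => ?_
          rw [map_smul, smul_eq_mul]
          ring
        rw [Finset.sum_congr rfl h3, Finset.sum_sub_distrib, Finset.sum_comm]
        have h4 : ∀ j ∈ range N, ∑ e ∈ (range N).powerset, T.ev n t (y1 j) * (sg i e * sg j e) =
            if i = j then T.ev n t (y1 j) * 2 ^ N else 0 := by
          intro j hj
          rw [← Finset.mul_sum, sg_orth N i j (Finset.mem_range.1 hi) (Finset.mem_range.1 hj)]
          split <;> simp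
        rw [Finset.sum_congr rfl h4, Finset.sum_ite_eq, if_pos hi]
        simp only [y1]
        rw [map_smul, map_sum, smul_eq_mul]
        simp only [map_smul, smul_eq_mul]
        have hne : ((2 : ℂ) ^ N) ≠ 0 := pow_ne_zero N two_ne_zero
        rw [mul_comm _ ((2 : ℂ) ^ N), mul_inv_cancel_left₀ hne, sub_self]
      rw [h2, mul_zero])
    (fun e he => by
      have h1 : ∀ t, rs N (fun i => T.ev n t (z' i)) e - T.ev n t (y' e) =
          T.ev n t (∑ i ∈ range N, sg i e • z i - y e) := by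
        intro t
        unfold rs
        simp only [z', y']
        simp only [map_sub, map_sum, map_smul, smul_eq_mul, mul_sub, Finset.sum_sub_distrib]
        ring
      simp only [h1]
      exact (T.Nn_le_N n _).trans (hyC e he))
    (fun e _ => T.two_le_one n (y' e) (hy'Y e))
  -- the lower bound
  obtain ⟨B, hBdef⟩ : ∃ B, B = √(∑ i ∈ range N, T.Nn n (z' i) ^ 2) := ⟨_, rfl⟩
  have hB0 : 0 ≤ B := by rw [hBdef]; exact Real.sqrt_nonneg _
  have hBB : B ^ 2 = ∑ i ∈ range N, T.Nn n (z' i) ^ 2 := by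
    rw [hBdef, Real.sq_sqrt]
    positivity
  have hlower : B ≤ (T.M n)⁻¹ * ∑ t, a t := by
    have h1 : ∀ t, ∑ i ∈ range N, T.Nn n (z' i) * ‖T.ev n t (z' i)‖ ≤ B * a t := by
      intro t
      have h2 := Finset.sum_mul_sq_le_sq_mul_sq (range N) (fun i => T.Nn n (z' i))
        (fun i => ‖T.ev n t (z' i)‖)
      rw [← hBB, ← ha2, ← mul_pow] at h2
      exact le_of_sq_le_sq h2 (mul_nonneg hB0 (Real.sqrt_nonneg _))
    have h2 : B * B ≤ B * ((T.M n)⁻¹ * ∑ t, a t) := by
      have h3 : B * B = (T.M n)⁻¹ * ∑ t, ∑ i ∈ range N, T.Nn n (z' i) * ‖T.ev n t (z' i)‖ := by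
        rw [Finset.sum_comm, ← sq, hBB, Finset.mul_sum]
        refine Finset.sum_congr rfl fun i _ => ?_
        rw [← Finset.mul_sum, sq]
        conv_lhs => rw [show T.Nn n (z' i) * T.Nn n (z' i) = T.Nn n (z' i) *
          ((T.M n)⁻¹ * ∑ t, ‖T.ev n t (z' i)‖) from rfl]
        ring
      rw [h3]
      have h4 : ∑ t, ∑ i ∈ range N, T.Nn n (z' i) * ‖T.ev n t (z' i)‖ ≤ ∑ t, B * a t :=
        Finset.sum_le_sum fun t _ => h1 t
      rw [← Finset.mul_sum] at h4
      have := (T.M_pos n).le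
      calc (T.M n)⁻¹ * ∑ t, ∑ i ∈ range N, T.Nn n (z' i) * ‖T.ev n t (z' i)‖
          ≤ (T.M n)⁻¹ * (B * ∑ t, a t) := by gcongr
        _ = _ := by ring
    rcases hB0.eq_or_lt with hB | hB
    · rw [← hB]
      have : 0 ≤ ∑ t, a t := Finset.sum_nonneg fun _ _ => Real.sqrt_nonneg _
      have := (T.M_pos n).le
      positivity
    · exact le_of_mul_le_mul_left h2 hB
  have h := hlower.trans hupper
  have h2 := pow_le_pow_left₀ hB0 h 2
  rw [mul_pow, hCC, hBB] at h2
  refine le_trans (Finset.sum_le_sum fun i hi => ?_) h2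
  exact pow_le_pow_left₀ (norm_nonneg _) (hzc i (Finset.mem_range.1 hi)) 2

/-- cotype 2 for classes of polynomials, closed form -/
theorem finite_cotype' (N : ℕ) (z : ℕ → (Γ →₀ ℂ)) :
    ∑ i ∈ range N, ‖Q.q (z i)‖ ^ 2 ≤ 17 ^ 2 * ((2 ^ N)⁻¹ * ∑ e ∈ (range N).powerset,
      ‖∑ i ∈ range N, sg i e • Q.q (z i)‖ ^ 2) := by
  have hcont : Tendsto (fun ε : ℝ => 17 ^ 2 * ((2 ^ N)⁻¹ * ∑ e ∈ (range N).powerset,
      (‖∑ i ∈ range N, sg i e • Q.q (z i)‖ + ε) ^ 2)) (𝓝[>] 0)
      (𝓝 (17 ^ 2 * ((2 ^ N)⁻¹ * ∑ e ∈ (range N).powerset,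
      (‖∑ i ∈ range N, sg i e • Q.q (z i)‖ + 0) ^ 2))) := by
    refine Tendsto.mono_left (Continuous.tendsto ?_ 0) nhdsWithin_le_nhds
    fun_prop
  simp only [add_zero] at hcont
  refine ge_of_tendsto hcont ?_
  filter_upwards [self_mem_nhdsWithin] with ε hε
  refine finite_cotype Q N z _ fun e _ => ?_
  have h : Q.q (∑ i ∈ range N, sg i e • z i) = ∑ i ∈ range N, sg i e • Q.q (z i) := by
    simp only [map_sum, map_smul]
  rw [h]
  have : (0 : ℝ) < ε := hε
  linarith

include Q in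
/-- the quotient has cotype 2 -/
theorem cotype (N : ℕ) (x : ℕ → X) :
    ∑ i ∈ range N, ‖x i‖ ^ 2 ≤ 17 ^ 2 * ((2 ^ N)⁻¹ * ∑ e ∈ (range N).powerset,
      ‖∑ i ∈ range N, sg i e • x i‖ ^ 2) := by
  have hd : DenseRange (Pi.map fun _ : ℕ => (Q.q : (Γ →₀ ℂ) → X)) :=
    DenseRange.piMap fun _ => Q.q_dense
  refine hd.induction_on (p := fun x : ℕ → X => ∑ i ∈ range N, ‖x i‖ ^ 2 ≤
    17 ^ 2 * ((2 ^ N)⁻¹ * ∑ e ∈ (range N).powerset, ‖∑ i ∈ range N, sg i e • x i‖ ^ 2)) x ?_ ?_
  · refine isClosed_le ?_ ?_ <;> fun_prop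
  · intro z
    exact finite_cotype' Q N z

include Q in
/-- the quotient is separable if the dual group is metrizable -/
theorem separable [Countable Γ] : TopologicalSpace.SeparableSpace X := by
  have h1 : TopologicalSpace.IsSeparable
      (Submodule.span ℂ (Set.range fun a : Γ => Q.q (Finsupp.single a (1 : ℂ))) : Set X) :=
    (Set.countable_range _).isSeparable.span
  have h2 : Set.range Q.q ⊆
      (Submodule.span ℂ (Set.range fun a : Γ => Q.q (Finsupp.single a (1 : ℂ))) : Set X) := by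
    rintro _ ⟨c, rfl⟩
    have h3 : c = c.sum fun a z => z • Finsupp.single a (1 : ℂ) := by
      conv_lhs => rw [← Finsupp.sum_single c]
      refine Finsupp.sum_congr fun a _ => ?_
      rw [Finsupp.smul_single, smul_eq_mul, mul_one]
    rw [h3, Finsupp.sum, map_sum]
    refine Submodule.sum_mem _ fun a _ => ?_
    rw [map_smul]
    exact Submodule.smul_mem _ _ (Submodule.subset_span ⟨a, rfl⟩)
  have h4 := (h1.mono h2).closure
  rw [Q.q_dense.closure_range] at h4
  exact TopologicalSpace.isSeparable_univ_iff.1 h4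

end

theorem countable_K3 : Countable (K3 × K3) := by
  have : Countable K3 := by
    have h1 : (Set.univ : Set K3) ⊆ ⋃ n : ℕ, (F3 n : Set K3) := by
      intro x _
      obtain ⟨n, hn⟩ := ex_F3 x
      exact Set.mem_iUnion.2 ⟨n, hn⟩
    have h2 : (⋃ n : ℕ, (F3 n : Set K3)).Countable := by
      refine Set.countable_iUnion fun n => ?_
      have := fin_F3 n
      exact Set.Finite.countable (Set.toFinite _)
    exact Set.countable_univ_iff.1 (h2.mono h1)
  infer_instance

/-- Rademacher cotype 2: the square function of finitely many vectors `x 0, …, x (n - 1)` is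
bounded by the quadratic mean of the norms of all their `2 ^ n` signed sums (the signs are `+` on
the set `e` and `-` off it). -/
def HasCotypeTwo (X : Type) [NormedAddCommGroup X] : Prop :=
  ∃ C : ℝ, ∀ (n : ℕ) (x : ℕ → X), ∑ i ∈ range n, ‖x i‖ ^ 2 ≤
    C * ((2 ^ n)⁻¹ * ∑ e ∈ (range n).powerset, ‖∑ i ∈ range n, (if i ∈ e then x i else - x i)‖ ^ 2)

theorem hasCotypeTwo {Γ : Type} [AddCommGroup Γ] {T : Tow Γ} {X : Type} [NormedAddCommGroup X]
    [NormedSpace ℂ X] (Q : Quo T X) : HasCotypeTwo X := by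
  refine ⟨17 ^ 2, fun n x => ?_⟩
  have h := cotype Q n x
  have h1 : ∀ (i : ℕ) (e : Finset ℕ), sg i e • x i = if i ∈ e then x i else - x i := by
    intro i e
    unfold sg
    split <;> simp
  simp only [h1] at h
  exact h

end Pool.Agent.Y105.CT
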