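import Pool.Agent.TH325.PI.Noc
import Pool.Agent.TH325.PI.Ari
import Pool.Agent.TH325.PI.Inf
import Pool.Agent.TH325.PI.Idx

/-!
# Cotype 2 of the quotient of `L_1` by the span of a Sidon set

The estimate behind the absence of copies of `c_0` in `Pool.Agent.TH325.PI.Noc`, with one constant
for each choice of signs and only the mean square of the constants bounded.
-/

set_option autoImplicit false

open scoped ComplexConjugate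
open Finset Pool.Agent.TH325.PI

namespace Pool.Agent.Y105.CT

/-- the abstract estimate -/
theorem square_bound2 {Ω S : Type*} (O : Finset Ω) (s : Finset S) (M K : ℝ) (hM : 0 < M)
    (hK : 0 < K) (hMO : (O.card : ℝ) = M) (hKs : (s.card : ℝ) = K) (F y : S → Ω → ℂ) (a : Ω → ℝ)
    (ha : ∀ t ∈ O, 0 ≤ a t) (C : ℝ) (hC : 0 ≤ C)
    (D : S → ℝ) (hDs : K⁻¹ * ∑ e ∈ s, D e ^ 2 ≤ C ^ 2)
    (h1 : ∀ t ∈ O, ∑ e ∈ s, ‖F e t‖ ^ 2 = K * a t ^ 2)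
    (h2 : ∀ t ∈ O, ∑ e ∈ s, ‖F e t‖ ^ 4 ≤ 3 * K * a t ^ 4)
    (h3 : ∀ t ∈ O, ∑ e ∈ s, conj (F e t) * y e t = 0)
    (h4 : ∀ e ∈ s, M⁻¹ * ∑ t ∈ O, ‖F e t - y e t‖ ≤ D e)
    (h5 : ∀ e ∈ s, M⁻¹ * ∑ t ∈ O, ‖y e t‖ ^ 2 ≤ 2 * (M⁻¹ * ∑ t ∈ O, ‖y e t‖) ^ 2) :
    M⁻¹ * ∑ t ∈ O, a t ≤ 17 * C := by
  classical
  obtain ⟨A, hA⟩ : ∃ A, A = M⁻¹ * ∑ t ∈ O, a t := ⟨_, rfl⟩
  have hA0 : 0 ≤ A := by
    rw [hA]
    have := Finset.sum_nonneg ha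
    positivity
  rw [← hA]
  rcases (add_nonneg hA0 hC).eq_or_lt with h0 | hpos
  · linarith
  obtain ⟨A', hA'⟩ : ∃ A', A' = A + C := ⟨_, rfl⟩
  rw [← hA'] at hpos
  have hMi : 0 ≤ M⁻¹ := inv_nonneg.2 hM.le
  have hKi : 0 ≤ K⁻¹ := inv_nonneg.2 hK.le
  -- step a
  have hpair : ∀ t ∈ O, ∀ t' ∈ O, ∑ e ∈ s, ‖F e t‖ * ‖F e t'‖ ≤ K * (a t * a t') := by
    intro t ht t' ht'
    have h := Finset.sum_mul_sq_le_sq_mul_sq s (fun e => ‖F e t‖) (fun e => ‖F e t'‖)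
    rw [h1 t ht, h1 t' ht'] at h
    have h6 : (∑ e ∈ s, ‖F e t‖ * ‖F e t'‖) ^ 2 ≤ (K * (a t * a t')) ^ 2 := by
      refine h.trans (le_of_eq ?_)
      ring
    have := ha t ht
    have := ha t' ht'
    exact le_of_sq_le_sq h6 (by positivity)
  have hstepa : K⁻¹ * ∑ e ∈ s, (M⁻¹ * ∑ t ∈ O, ‖F e t‖) ^ 2 ≤ A ^ 2 := by
    have e1 : ∀ e ∈ s, (M⁻¹ * ∑ t ∈ O, ‖F e t‖) ^ 2 =
        M⁻¹ ^ 2 * ∑ t ∈ O, ∑ t' ∈ O, ‖F e t‖ * ‖F e t'‖ := by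
      intro e _
      rw [mul_pow, sq (∑ t ∈ O, ‖F e t‖), Finset.sum_mul_sum]
    rw [Finset.sum_congr rfl e1, ← Finset.mul_sum]
    have e2 : ∑ e ∈ s, ∑ t ∈ O, ∑ t' ∈ O, ‖F e t‖ * ‖F e t'‖ ≤
        ∑ t ∈ O, ∑ t' ∈ O, K * (a t * a t') := by
      rw [Finset.sum_comm]
      refine Finset.sum_le_sum fun t ht => ?_
      rw [Finset.sum_comm]
      exact Finset.sum_le_sum fun t' ht' => hpair t ht t' ht'
    have e3 : ∑ t ∈ O, ∑ t' ∈ O, K * (a t * a t') = K * (∑ t ∈ O, a t) ^ 2 := by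
      rw [sq, Finset.sum_mul_sum, Finset.mul_sum]
      refine Finset.sum_congr rfl fun t _ => ?_
      rw [Finset.mul_sum]
    rw [e3] at e2
    calc K⁻¹ * (M⁻¹ ^ 2 * ∑ e ∈ s, ∑ t ∈ O, ∑ t' ∈ O, ‖F e t‖ * ‖F e t'‖)
        ≤ K⁻¹ * (M⁻¹ ^ 2 * (K * (∑ t ∈ O, a t) ^ 2)) := by gcongr
      _ = A ^ 2 := by
          rw [hA]
          field_simp
  -- step b
  have hstepb : K⁻¹ * ∑ e ∈ s, M⁻¹ * ∑ t ∈ O, ‖y e t‖ ^ 2 ≤ 4 * A' ^ 2 := by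
    have e1 : ∀ e ∈ s, M⁻¹ * ∑ t ∈ O, ‖y e t‖ ^ 2 ≤ 4 * (M⁻¹ * ∑ t ∈ O, ‖F e t‖) ^ 2 +
        4 * D e ^ 2 := by
      intro e he
      refine (h5 e he).trans ?_
      have e2 : M⁻¹ * ∑ t ∈ O, ‖y e t‖ ≤ M⁻¹ * ∑ t ∈ O, ‖F e t‖ + D e := by
        have e3 : ∑ t ∈ O, ‖y e t‖ ≤ ∑ t ∈ O, ‖F e t‖ + ∑ t ∈ O, ‖F e t - y e t‖ := by
          rw [← Finset.sum_add_distrib]
          refine Finset.sum_le_sum fun t _ => ?_
          have := norm_sub_le (F e t) (F e t - y e t)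
          rwa [sub_sub_cancel] at this
        have e4 := mul_le_mul_of_nonneg_left e3 hMi
        have e5 := h4 e he
        rw [mul_add] at e4
        linarith
      have e6 : 0 ≤ M⁻¹ * ∑ t ∈ O, ‖y e t‖ :=
        mul_nonneg hMi (Finset.sum_nonneg fun _ _ => norm_nonneg _)
      have e7 := pow_le_pow_left₀ e6 e2 2
      nlinarith [sq_nonneg (M⁻¹ * ∑ t ∈ O, ‖F e t‖ - D e)]
    have e8 : ∑ e ∈ s, M⁻¹ * ∑ t ∈ O, ‖y e t‖ ^ 2 ≤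
        4 * ∑ e ∈ s, (M⁻¹ * ∑ t ∈ O, ‖F e t‖) ^ 2 + 4 * ∑ e ∈ s, D e ^ 2 := by
      refine (Finset.sum_le_sum e1).trans (le_of_eq ?_)
      rw [Finset.sum_add_distrib, ← Finset.mul_sum, ← Finset.mul_sum]
    have e9 := mul_le_mul_of_nonneg_left e8 hKi
    have e10 : K⁻¹ * (4 * ∑ e ∈ s, (M⁻¹ * ∑ t ∈ O, ‖F e t‖) ^ 2 + 4 * ∑ e ∈ s, D e ^ 2) =
        4 * (K⁻¹ * ∑ e ∈ s, (M⁻¹ * ∑ t ∈ O, ‖F e t‖) ^ 2) + 4 * (K⁻¹ * ∑ e ∈ s, D e ^ 2) := by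
      ring
    rw [e10] at e9
    have : A ^ 2 + C ^ 2 ≤ A' ^ 2 := by rw [hA']; nlinarith
    linarith
  -- step c
  have hstepc : ∀ t ∈ O, a t ≤ 10 * (K⁻¹ * ∑ e ∈ s, ‖F e t - y e t‖) + 3 / 100 * a t +
      3 * A' / 20 + K⁻¹ * (∑ e ∈ s, ‖y e t‖ ^ 2) / (20 * A') := by
    intro t ht
    rcases (ha t ht).eq_or_lt with hz | hat
    · have n1 : 0 ≤ K⁻¹ * ∑ e ∈ s, ‖F e t - y e t‖ :=
        mul_nonneg hKi (Finset.sum_nonneg fun _ _ => norm_nonneg _)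
      have n2 : 0 ≤ K⁻¹ * (∑ e ∈ s, ‖y e t‖ ^ 2) / (20 * A') := by
        have : 0 ≤ ∑ e ∈ s, ‖y e t‖ ^ 2 := Finset.sum_nonneg fun _ _ => by positivity
        positivity
      rw [← hz]
      have : 0 ≤ 3 * A' / 20 := by positivity
      linarith
    · have e1 : K * a t ^ 2 ≤ ∑ e ∈ s, ‖F e t‖ * ‖F e t - y e t‖ := by
        have e2 : ((K * a t ^ 2 : ℝ) : ℂ) = ∑ e ∈ s, conj (F e t) * (F e t - y e t) := by
          simp only [mul_sub]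
          rw [Finset.sum_sub_distrib, h3 t ht, sub_zero, ← h1 t ht]
          push_cast
          refine Finset.sum_congr rfl fun e _ => ?_
          rw [Complex.conj_mul']
        have e3 : K * a t ^ 2 = ‖((K * a t ^ 2 : ℝ) : ℂ)‖ := by
          rw [Complex.norm_real, Real.norm_of_nonneg (by positivity)]
        rw [e3, e2]
        refine (norm_sum_le _ _).trans (Finset.sum_le_sum fun e _ => ?_)
        rw [norm_mul, RCLike.norm_conj]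
      have e4 : ∑ e ∈ s, ‖F e t‖ * ‖F e t - y e t‖ ≤ 10 * a t * ∑ e ∈ s, ‖F e t - y e t‖ +
          (∑ e ∈ s, ‖F e t‖ ^ 4) / (100 * a t ^ 2) +
          (∑ e ∈ s, ‖F e t‖ ^ 4) * A' / (20 * a t ^ 3) +
          a t * (∑ e ∈ s, ‖y e t‖ ^ 2) / (20 * A') := by
        rw [Finset.mul_sum, Finset.sum_div, Finset.sum_mul, Finset.sum_div, Finset.mul_sum,
          Finset.sum_div, ← Finset.sum_add_distrib, ← Finset.sum_add_distrib,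
          ← Finset.sum_add_distrib]
        refine Finset.sum_le_sum fun e _ => ?_
        exact trunc_real (a t) A' ‖F e t‖ ‖F e t - y e t‖ ‖y e t‖ hat hpos (norm_nonneg _)
          (norm_nonneg _) (norm_nonneg _) (norm_sub_le _ _)
      have e5 : (∑ e ∈ s, ‖F e t‖ ^ 4) / (100 * a t ^ 2) ≤ (3 * K * a t ^ 4) / (100 * a t ^ 2) := by
        gcongr
        exact h2 t ht
      have e6 : (∑ e ∈ s, ‖F e t‖ ^ 4) * A' / (20 * a t ^ 3) ≤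
          (3 * K * a t ^ 4) * A' / (20 * a t ^ 3) := by
        gcongr
        exact h2 t ht
      have e7 : K * a t * a t ≤ K * a t * (10 * (K⁻¹ * ∑ e ∈ s, ‖F e t - y e t‖) + 3 / 100 * a t +
          3 * A' / 20 + K⁻¹ * (∑ e ∈ s, ‖y e t‖ ^ 2) / (20 * A')) := by
        have e8 : K * a t * (10 * (K⁻¹ * ∑ e ∈ s, ‖F e t - y e t‖) + 3 / 100 * a t +
          3 * A' / 20 + K⁻¹ * (∑ e ∈ s, ‖y e t‖ ^ 2) / (20 * A')) =
            10 * a t * ∑ e ∈ s, ‖F e t - y e t‖ + (3 * K * a t ^ 4) / (100 * a t ^ 2) +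
            (3 * K * a t ^ 4) * A' / (20 * a t ^ 3) +
            a t * (∑ e ∈ s, ‖y e t‖ ^ 2) / (20 * A') := by
          field_simp
        rw [e8]
        nlinarith [e1, e4, e5, e6]
      exact le_of_mul_le_mul_left e7 (by positivity)
  have hsum := Finset.sum_le_sum hstepc
  rw [Finset.sum_add_distrib, Finset.sum_add_distrib, Finset.sum_add_distrib, ← Finset.mul_sum,
    ← Finset.mul_sum, ← Finset.mul_sum, Finset.sum_const, nsmul_eq_mul, hMO,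
    ← Finset.sum_div, ← Finset.mul_sum, Finset.sum_comm, Finset.sum_comm (s := O) (t := s)] at hsum
  have hfin := mul_le_mul_of_nonneg_left hsum hMi
  have hu : M⁻¹ * (10 * (K⁻¹ * ∑ e ∈ s, ∑ t ∈ O, ‖F e t - y e t‖)) ≤ 10 * C := by
    have e1 := Finset.sum_le_sum h4
    rw [← Finset.mul_sum] at e1
    have e2 := mul_le_mul_of_nonneg_left e1 hKi
    have e3 : K⁻¹ * ∑ e ∈ s, D e ≤ C := by
      have e4 := sq_sum_le_card_mul_sum_sq (s := s) (f := D)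
      rw [hKs] at e4
      refine le_of_sq_le_sq ?_ hC
      calc (K⁻¹ * ∑ e ∈ s, D e) ^ 2 = K⁻¹ ^ 2 * (∑ e ∈ s, D e) ^ 2 := by ring
        _ ≤ K⁻¹ ^ 2 * (K * ∑ e ∈ s, D e ^ 2) := by gcongr
        _ = K⁻¹ * ∑ e ∈ s, D e ^ 2 := by field_simp
        _ ≤ C ^ 2 := hDs
    linarith
  have hy : M⁻¹ * (K⁻¹ * (∑ e ∈ s, ∑ t ∈ O, ‖y e t‖ ^ 2) / (20 * A')) ≤ A' / 5 := by
    have e1 : M⁻¹ * (K⁻¹ * (∑ e ∈ s, ∑ t ∈ O, ‖y e t‖ ^ 2) / (20 * A')) =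
        (K⁻¹ * ∑ e ∈ s, M⁻¹ * ∑ t ∈ O, ‖y e t‖ ^ 2) / (20 * A') := by
      rw [← Finset.mul_sum]
      ring
    rw [e1, div_le_iff₀ (by positivity)]
    nlinarith
  have hm : M⁻¹ * (M * (3 * A' / 20)) = 3 * A' / 20 := by field_simp
  have ha' : M⁻¹ * (3 / 100 * ∑ t ∈ O, a t) = 3 / 100 * A := by rw [hA]; ring
  rw [mul_add, mul_add, mul_add, hm, ha', ← hA] at hfin
  rw [hA'] at hfin hy
  linarith

end Pool.Agent.Y105.CT
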